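import Pool.Agent.X39.Near.Ax
import Pool.Agent.X39.Near.DepInt
import Pool.Agent.Y776.Fam.MainT
import Pool.Agent.TH813.EKPer

/-!
# The period conjecture for families of 1-motives and iterated integrals at ALL algebraic points near every number
outside ONE set of dimension zero, relative to the periods of all motives

Let `E_z : y² = 4 x³ - g₂(z) x - g₃(z)` be a family of elliptic curves whose invariants are algebraic functions of `z`
and whose `j` is not constant, and let `P_1, …, P_r` be algebraic sections which are independent modulo torsion. Let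
further `t_1, …, t_s` be a tower of integrals: the derivative of `t_k` is algebraic over `ℂ(z, t_1, …, t_(k-1))`, and
the functions `z, t_1, …, t_s` are algebraically independent. Examples are integrals of the first, second and third kind
on any curves which do not depend on `z`, between points depending on `z`, logarithms of algebraic functions, and all
iterated integrals of algebraic differentials, for instance multiple polylogarithms (periods of mixed Tate motives).
Then `ω₁, ω₂, η₁` (`η₂` is determined by Legendre's relation), the elliptic logarithms `u_i` of `P_i`, the integrals of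
the second kind `ζ(u_i)`, the integrals of the third kind `S_k = log σ(∑ N_i u_i)` and `t_k` are built from periods of
Nori motives `M_z` over the field generated by `z`, and the conjecture for these motives says that in general the
`3 + 2 r + s + q` numbers are algebraically independent over the field of the periods of any other motive.

We consider any SEQUENCE of such families (for instance all families which are defined over the algebraic numbers, on
discs with rational centres and radii), and any sequence `ξ_0, ξ_1, …` of complex numbers, for instance an enumeration of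
the periods of ALL Nori motives over the algebraic numbers. We show that there is ONE set `E` of Hausdorff dimension zero
such that for every complex number `x` outside of `E` and every family `M_z` of the sequence on a neighbourhood of `x`
the period conjecture is true in bounded degree and height, relative to `ξ_0, …, ξ_(g-1)`, for `M_z` at ALL algebraic
points `z` of any number field `F` which are near to `x`: for all `d`, `A`, `g` and `ω > 0` there is `B` such that for
all large `T` and all `z ∈ F` of height at most `T` with `|z - x| ≤ T ^ (-ω)` the `3 + 2 r + s + q` numbers satisfy no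
approximate relation, up to `T ^ (-B)`, of degree at most `d`, whose coefficients are polynomials in `ξ_0, …, ξ_(g-1)` of
degree at most `d` with coefficients in the integers of `F` with conjugates at most `T ^ A`. In particular every nonzero
polynomial over `ℤ` of degree at most `d` and height at most `T ^ A` has a value of absolute value more than `T ^ (-B)` at
these numbers. If `x` is real and irrational, this holds at the convergents `z` of the continued fraction of `x`, at the
level of their denominators, from some point on.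

The starting results `MP_ae0f86_nt.OneMotivesAndTowers` and `SmallDiscs` have few exceptional points of height at most `T`
(in a compact set, or in a disc of radius `T ^ (-δ)`); here there is no exceptional point.

Proof: the functions are algebraically independent over `ℂ(z)`, an Ax-Schanuel theorem relative to countable fields of
constants (`Pool.Agent.Y776.Fam.fam_locIndT`); there are at most `C T ^ ε` exceptional points of height `T`, for every
`ε > 0`, and so the points which are close to exceptional points form a set of dimension zero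
(`Pool.Agent.X39.Near.near_dep`).
-/

set_option autoImplicit false

open scoped PeriodPair
open NumberField

namespace Pool.Agent.Results.MP_ae0f86_nt.AllPointsNearEveryNumber

/-- The Weierstrass zeta function `ζ(z) = ∑ (1/(z-l) + 1/l + z/l²)`, the sum over the lattice (the summand of `l = 0` is
`1/z`, since `1/0 = 0` in Lean). -/
noncomputable def ζ (L : PeriodPair) (z : ℂ) : ℂ :=
  ∑' l : L.lattice, (1 / (z - l) + 1 / l + z / l ^ 2)

/-- The Weierstrass sigma function `σ(z) = z ∏ (1 - z/l) exp(z/l + z²/(2 l²))`, the product over the lattice (the factor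
of `l = 0` is `1`, since `z/0 = 0` in Lean). -/
noncomputable def σ (L : PeriodPair) (z : ℂ) : ℂ :=
  z * ∏' l : L.lattice, ((1 - z / l) * Complex.exp (z / l + (z / l) ^ 2 / 2))

/-- The function `f` is algebraic over `ℂ(z)` on the set `U`. -/
def Algebraic (U : Set ℂ) (f : ℂ → ℂ) : Prop :=
  ∃ P : MvPolynomial (Fin 2) ℂ, P ≠ 0 ∧ ∀ z ∈ U, MvPolynomial.eval ![z, f z] P = 0

/-- A family of elliptic curves `ℂ / Λ_z` with points `P_i = (℘(u_i), ℘'(u_i))`, a tower of functions `t_k`, and
branches `S_k` of `log σ(∑ N_ki u_i)`. -/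
structure Family (U : Set ℂ) (Λ : ℂ → PeriodPair) {r s q : ℕ} (u : Fin r → ℂ → ℂ) (t : Fin s → ℂ → ℂ)
    (N : Fin q → Fin r → ℤ) (S : Fin q → ℂ → ℂ) : Prop where
  isOpen : IsOpen U
  isPreconnected : IsPreconnected U
  /-- the lattice depends analytically on `z` -/
  analytic₁ : AnalyticOnNhd ℂ (fun z => (Λ z).ω₁) U
  analytic₂ : AnalyticOnNhd ℂ (fun z => (Λ z).ω₂) U
  /-- the invariants are algebraic functions -/
  algebraic₂ : Algebraic U (fun z => (Λ z).g₂)
  algebraic₃ : Algebraic U (fun z => (Λ z).g₃)
  /-- `j` is not constant: `g₂³` and `g₃²` are linearly independent -/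
  nonconstant : ∀ a b : ℂ, (∀ z ∈ U, a * (Λ z).g₂ ^ 3 = b * (Λ z).g₃ ^ 2) → a = 0 ∧ b = 0
  /-- the points are given by analytic functions `u_i`; they are not zero and their coordinates are algebraic -/
  point : ∀ i, AnalyticOnNhd ℂ (u i) U
  point_ne : ∀ i, ∀ z ∈ U, u i z ∉ (Λ z).lattice
  point_alg : ∀ i, Algebraic U (fun z => ℘[Λ z] (u i z))
  /-- the points are independent modulo torsion -/
  point_ind : ∀ n : Fin r → ℤ, (∀ z ∈ U, ∑ i, (n i : ℂ) * u i z ∈ (Λ z).lattice) → n = 0
  /-- the derivative of the analytic function `t_k` is algebraic over `ℂ(z, t_1, …, t_(k-1))`: there is a nonzero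
  polynomial relation between `z`, the derivative, and `t_1, …, t_(k-1)` -/
  tower : ∀ k, AnalyticOnNhd ℂ (t k) U
  tower_deriv : ∀ k : Fin s, ∃ P : MvPolynomial (Fin 2 ⊕ Fin k) ℂ, P ≠ 0 ∧ ∀ z ∈ U,
    MvPolynomial.eval (Sum.elim ![z, deriv (t k) z] (fun j => t (Fin.castLE k.isLt.le j) z)) P = 0
  /-- the functions `z, t_1, …, t_s` are algebraically independent over `ℂ` -/
  tower_ind : ∀ P : MvPolynomial (Option (Fin s)) ℂ,
    (∀ z ∈ U, MvPolynomial.eval (fun o : Option (Fin s) => o.elim z (fun k => t k z)) P = 0) → P = 0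
  /-- `S_k` is a logarithm of `σ(∑ N_ki u_i)` -/
  sigma : ∀ k, AnalyticOnNhd ℂ (S k) U
  sigma_exp : ∀ k, ∀ z ∈ U, Complex.exp (S k z) = σ (Λ z) (∑ i, (N k i : ℂ) * u i z)
  /-- the quadratic forms `(∑ N_ki X_i)²` are linearly independent -/
  sigma_ind : ∀ c : Fin q → ℤ, (∀ i j, ∑ k, c k * (N k i * N k j) = 0) → c = 0

/-- The numbers `ω₁, ω₂, η₁ = 2 ζ(ω₁ / 2), u_i, ζ(u_i), t_k, S_k` at the point `z`. -/
noncomputable def periods (Λ : ℂ → PeriodPair) {r s q : ℕ} (u : Fin r → ℂ → ℂ) (t : Fin s → ℂ → ℂ)
    (S : Fin q → ℂ → ℂ) (z : ℂ) : Fin 3 ⊕ (Fin r ⊕ (Fin r ⊕ (Fin s ⊕ Fin q))) → ℂ :=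
  Sum.elim ![(Λ z).ω₁, (Λ z).ω₂, 2 * ζ (Λ z) ((Λ z).ω₁ / 2)] (Sum.elim (fun i => u i z)
    (Sum.elim (fun i => ζ (Λ z) (u i z)) (Sum.elim (fun k => t k z) (fun k => S k z))))

/-- The element `z` of `F` is a quotient of integers all of whose conjugates have absolute value at most `T`. -/
def HeightLe (F : Type) [Field F] [NumberField F] (T : ℝ) (z : F) : Prop :=
  ∃ a b : 𝓞 F, b ≠ 0 ∧ (∀ φ : F →+* ℂ, ‖φ a‖ ≤ T ∧ ‖φ b‖ ≤ T) ∧ z = a / b

/-- The value at `ξ_0, …, ξ_(g-1)` of a polynomial with coefficients in the integers of the number field `F ⊂ ℂ`. -/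
noncomputable def value {g : ℕ} (ξ : Fin g → ℂ) (F : Type) [Field F] (ι : F →+* ℂ) (c : MvPolynomial (Fin g) (𝓞 F)) : ℂ :=
  MvPolynomial.eval₂ (ι.comp (algebraMap (𝓞 F) F)) ξ c

/-- There is no relation of degree at most `d` between the numbers `v`, relative to `ξ_0, …, ξ_(g-1)`, of height at
most `H`, not even up to `δ`. (1) The polynomials `P` of degree at most `d` in each variable, whose coefficients are the
values at `ξ_0, …, ξ_(g-1)` of polynomials of degree at most `d` in each variable with coefficients in the integers of `F`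
all of whose conjugates are at most `H`, take at `v` a value which is more than `δ` times each nonzero coefficient.
(2) The nonzero polynomials over `ℤ` of degree at most `d` in each variable with coefficients at most `H` take at `v` a
value of absolute value more than `δ`. -/
def NoRelation {J : Type} (v : J → ℂ) {g : ℕ} (ξ : Fin g → ℂ) (F : Type) [Field F] [NumberField F] (ι : F →+* ℂ)
    (d : ℕ) (H δ : ℝ) : Prop :=
  (∀ P : MvPolynomial J (MvPolynomial (Fin g) (𝓞 F)), (∀ j, P.degreeOf j ≤ d) →
    (∀ e y, (P.coeff e).degreeOf y ≤ d) → (∀ e s (φ : F →+* ℂ), ‖φ ((P.coeff e).coeff s : 𝓞 F)‖ ≤ H) →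
    ∀ e, value ξ F ι (P.coeff e) ≠ 0 →
      δ * ‖value ξ F ι (P.coeff e)‖ <
        ‖MvPolynomial.eval₂ (MvPolynomial.eval₂Hom (ι.comp (algebraMap (𝓞 F) F)) ξ) v P‖) ∧
  ∀ P : MvPolynomial J ℤ, P ≠ 0 → (∀ j, P.degreeOf j ≤ d) → (∀ e, |((P.coeff e : ℤ) : ℝ)| ≤ H) →
    δ < ‖MvPolynomial.aeval v P‖

lemma noRelation_of {J : Type} {v : J → ℂ} {g : ℕ} {ξ : Fin g → ℂ} {F : Type} [Field F] [NumberField F]
    {ι : F →+* ℂ} {d : ℕ} {A B T : ℝ} (hT : 0 < T) (h : ¬ Pool.Agent.X39.Near.Dep v ξ F ι d A B T) :
    NoRelation v ξ F ι d (T ^ A) (T ^ (-B)) := by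
  refine ⟨fun P h1 h2 h3 e he => ?_, fun P hP hPd hPA =>
    Pool.Agent.X39.Near.int_of_not_dep h hT P hP hPd hPA⟩
  by_contra hcon
  rw [not_lt] at hcon
  exact h ⟨P, h1, h2, h3, e, he, hcon⟩

/-- **Theorem.** For any sequence of families and any sequence `ξ` of complex numbers there is ONE set `E` of complex
numbers of Hausdorff dimension `0` with the following properties. (1) For all complex `x` outside `E` and all families of
the sequence on a neighbourhood of `x`, all number fields `F` with an embedding `ι` in `ℂ`, all `g`, `d`, `A` and `ω > 0`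
there are `B`, `T₁` such that for all `T ≥ T₁` and all `z ∈ F`, quotients of integers with conjugates at most `T`, with
`|ι z - x| ≤ T ^ (-ω)`, there is no relation between the periods at `z`. (2) For all irrational real `x` outside `E`, all
these families and all `g`, `d`, `A` there is `B` such that this holds over `ℚ` at the convergents `z` of `x`, at the
level of the denominator, from some point on. -/
theorem result (r s q : ℕ → ℕ) (U : ℕ → Set ℂ) (Λ : ℕ → ℂ → PeriodPair) (u : ∀ j, Fin (r j) → ℂ → ℂ)
    (t : ∀ j, Fin (s j) → ℂ → ℂ) (N : ∀ j, Fin (q j) → Fin (r j) → ℤ) (S : ∀ j, Fin (q j) → ℂ → ℂ)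
    (hU : ∀ j, Family (U j) (Λ j) (u j) (t j) (N j) (S j)) (ξ : ℕ → ℂ) :
    ∃ E : Set ℂ, dimH E = 0 ∧
      (∀ x : ℂ, x ∉ E → ∀ j : ℕ, x ∈ U j → ∀ (F : Type) [Field F] [NumberField F] (ι : F →+* ℂ)
        (g d A : ℕ) (ω : ℝ), 0 < ω → ∃ B T₁ : ℝ, ∀ T : ℝ, T₁ ≤ T → ∀ z : F, HeightLe F T z →
          ‖ι z - x‖ ≤ T ^ (-ω) →
          NoRelation (periods (Λ j) (u j) (t j) (S j) (ι z)) (fun i : Fin g => ξ i) F ι d (T ^ A) (T ^ (-B))) ∧
      ∀ x : ℝ, Irrational x → (x : ℂ) ∉ E → ∀ j : ℕ, (x : ℂ) ∈ U j → ∀ g d A : ℕ, ∃ (B : ℝ) (n₀ : ℕ),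
        ∀ k : ℕ, n₀ ≤ k →
          NoRelation (periods (Λ j) (u j) (t j) (S j) ((x.convergent k : ℚ) : ℂ)) (fun i : Fin g => ξ i) ℚ
            (algebraMap ℚ ℂ) d ((x.convergent k).den ^ A) ((x.convergent k).den ^ (-B)) := by
  classical
  have hF : ∀ j, Y776.Fam.FmT (U j) (Λ j) (u j) (t j) (N j) (S j) := fun j =>
    ⟨{ isOpen := (hU j).isOpen, conn := (hU j).isPreconnected, an₁ := (hU j).analytic₁, an₂ := (hU j).analytic₂
       ni := (hU j).nonconstant, ag2 := (hU j).algebraic₂, ag3 := (hU j).algebraic₃, ua := (hU j).point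
       un := (hU j).point_ne, uw := (hU j).point_alg, ui := (hU j).point_ind, la := fun k => k.elim0
       le := fun k => k.elim0, li := fun _ _ _ => Subsingleton.elim _ _
       Sa := (hU j).sigma, Se := (hU j).sigma_exp, Ni := (hU j).sigma_ind },
      (hU j).tower, (hU j).tower_deriv, (hU j).tower_ind⟩
  have hper : ∀ j i, (fun z => periods (Λ j) (u j) (t j) (S j) z i) = Y776.Fam.yfam (Λ j) (u j) (t j) (S j) i := by
    intro j i
    funext z
    rcases i with a | i | i | k | k
    · fin_cases a
      · rfl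
      · rfl
      · exact (Pool.Agent.TH813.Ell.eta_half (Λ j z).ω₁_mem_lattice (Pool.Agent.TH813.Ell.half₁ (Λ j z))).symm
    all_goals rfl
  have H : ∀ jg : ℕ × ℕ, ∃ E : Set ℂ, dimH E = 0 ∧
      (∀ x ∈ U jg.1, x ∉ E → ∀ (F : Type) [Field F] [NumberField F] (ι : F →+* ℂ)
        (d A : ℕ) (ω : ℝ), 0 < ω → ∃ B T₁ : ℝ, ∀ T : ℝ, T₁ ≤ T → ∀ t' : F, Pool.Agent.X39.Near.Size F T t' →
          ‖ι t' - x‖ ≤ T ^ (-ω) → ¬ Pool.Agent.X39.Near.Dep
            (fun k => periods (Λ jg.1) (u jg.1) (t jg.1) (S jg.1) (ι t') k) (fun i : Fin jg.2 => ξ i) F ι d A B T) ∧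
      ∀ x : ℝ, Irrational x → (x : ℂ) ∈ U jg.1 → (x : ℂ) ∉ E → ∀ d A : ℕ, ∃ (B : ℝ) (n₀ : ℕ), ∀ k : ℕ,
        n₀ ≤ k → ¬ Pool.Agent.X39.Near.Dep
          (fun k' => periods (Λ jg.1) (u jg.1) (t jg.1) (S jg.1) ((x.convergent k : ℚ) : ℂ) k')
            (fun i : Fin jg.2 => ξ i) ℚ (algebraMap ℚ ℂ) d A B (x.convergent k).den := by
    rintro ⟨j, g⟩
    exact Pool.Agent.X39.Near.near_dep (U j) (hU j).isOpen (fun k z => periods (Λ j) (u j) (t j) (S j) z k)
      (fun k t' ht => by
        rw [hper j k]
        exact Y776.Fam.yfam_anT (hF j) k t' ht)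
      (fun t' ht => by
        have h1 : (fun k z => periods (Λ j) (u j) (t j) (S j) z k) = Y776.Fam.yfam (Λ j) (u j) (t j) (S j) :=
          funext fun k => hper j k
        rw [h1]
        exact Y776.Fam.fam_locIndT (hF j) ht) (fun i : Fin g => ξ i)
  choose E hE0 hE1 hE2 using H
  refine ⟨⋃ jg, E jg, by rw [dimH_iUnion]; simp [hE0], fun x hx j hxj F _ _ ι g d A ω hω => ?_,
    fun x hx hxE j hxj g d A => ?_⟩
  · obtain ⟨B, T₁, h4⟩ := hE1 (j, g) x hxj (fun h => hx (Set.mem_iUnion.2 ⟨_, h⟩)) F ι d A ω hω
    refine ⟨B, max T₁ 1, fun T hT z hz hzx => ?_⟩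
    have hT0 : 0 < T := lt_of_lt_of_le one_pos ((le_max_right _ _).trans hT)
    have h5 := noRelation_of hT0 (h4 T ((le_max_left _ _).trans hT) z hz hzx)
    rw [Real.rpow_natCast] at h5
    exact h5
  · obtain ⟨B, n₀, h4⟩ := hE2 (j, g) x hx hxj (fun h => hxE (Set.mem_iUnion.2 ⟨_, h⟩)) d A
    refine ⟨B, n₀, fun k hk => ?_⟩
    have hT0 : (0 : ℝ) < (x.convergent k).den := by exact_mod_cast (x.convergent k).pos
    have h5 := noRelation_of hT0 (h4 k hk)
    rw [Real.rpow_natCast] at h5
    exact h5

end Pool.Agent.Results.MP_ae0f86_nt.AllPointsNearEveryNumber
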