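import Pool.Agent.X255.RH.Main
import Pool.Agent.Y776.Fam.MainT
import Pool.Agent.TH813.EKPer

/-!
# The period conjecture for 1-motives and iterated integrals at ALL the roots of almost all integral polynomials,
relative to the periods of all motives

Let `E_z : y² = 4 x³ - g₂(z) x - g₃(z)` be a family of elliptic curves whose invariants are algebraic functions of `z`
and whose `j` is not constant, and let `P_1, …, P_r` be algebraic sections which are independent modulo torsion. Let
further `t_1, …, t_s` be a tower of integrals: the derivative of `t_k` is algebraic over `ℂ(z, t_1, …, t_(k-1))`, and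
the functions `z, t_1, …, t_s` are algebraically independent. Examples are integrals of the first, second and third kind
on any curves which do not depend on `z`, between points depending on `z`, logarithms of algebraic functions, and all
iterated integrals of algebraic differentials, for instance multiple polylogarithms (periods of mixed Tate motives).
Then `ω₁, ω₂, η₁` (`η₂` is determined by Legendre's relation), the elliptic logarithms `u_i` of `P_i`, the integrals of
the second kind `ζ(u_i)`, the integrals of the third kind `S_k = log σ(∑ N_i u_i)` and `t_k` are built from periods of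
Nori motives `M_z` over the field generated by `z`, if everything is defined over the algebraic numbers.

Let `x` be an algebraic number of degree `g` (over `ℚ`, or over any number field over which `M` is defined) with the
conjugates `x_1, …, x_g`. The sum of the motives `M_(x_i)` is the restriction of scalars of `M_x`, and the conjecture
says that in general the `g (3 + 2 r + s + q)` numbers at all the conjugates are algebraically independent, over the
field of the periods of any other motive. We show this in growing degree and height for almost all algebraic numbers `x`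
of degree `g`. More precisely we take any sequence `K_0, K_1, …` of compact subsets of the domain `U` of the family, for
instance with the union `U`, and any sequence `ξ_0, ξ_1, …` of complex numbers, for instance an enumeration of the
periods of ALL Nori motives over the algebraic numbers.

(1) There is a function `ω(T) → ∞` such that for all polynomials over `ℤ` with coefficients at most `T`, except for the
proportion `1 / ω(T)`, the polynomial has the degree `g` and simple roots, and the numbers at ALL roots in `K_(ω(T))`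
together satisfy no relation of degree at most `ω(T)` with coefficients `∑_{b < ω(T)} ξ_b c_b`, `c_b` integers of number
fields of degree at most `ω(T)` with conjugates at most `T ^ ω(T)`.

(2) If the roots are in a compact position (of absolute value at most `R` and at distance at least `η` from each other)
there are at most `C T ^ (g + ε)` exceptions, for every `ε > 0`: a full power of `T` is saved.

In the starting results `MP_ae0f86_nt.ConjugateOneMotives` (without towers and integrals of the third kind) all
conjugates are considered for the points of one fixed number field with bounded denominators; here the fields vary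
through all fields of degree `g`, and for `g ≥ 2` almost all of the points have pairwise different fields.

Proof: the functions are algebraically independent over `ℂ(z)`, an Ax-Schanuel theorem relative to countable fields of
constants (`Pool.Agent.Y776.Fam.fam_locIndT`), and the theorems on the values of algebraically independent functions at
the roots of almost all polynomials (`Pool.Agent.X255.RH.main_all`, `Pool.Agent.X255.RH.main_eps`) apply.
-/

set_option autoImplicit false

open scoped PeriodPair
open Polynomial Filter Topology NumberField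

namespace Pool.Agent.Results.MP_ae0f86_nt.AllRootsOfPolynomials

/-- The Weierstrass zeta function `ζ(z) = ∑ (1/(z-l) + 1/l + z/l²)`, the sum over the lattice (the summand of `l = 0` is
`1/z`, since `1/0 = 0` in Lean). -/
noncomputable def ζ (L : PeriodPair) (z : ℂ) : ℂ :=
  ∑' l : L.lattice, (1 / (z - l) + 1 / l + z / l ^ 2)

/-- The Weierstrass sigma function `σ(z) = z ∏ (1 - z/l) exp(z/l + z²/(2 l²))`, the product over the lattice (the factor
of `l = 0` is `1`, since `z/0 = 0` in Lean). -/
noncomputable def σ (L : PeriodPair) (z : ℂ) : ℂ :=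
  z * ∏' l : L.lattice, ((1 - z / l) * Complex.exp (z / l + (z / l) ^ 2 / 2))

/-- The function `f` is algebraic over `ℂ(z)` on the set `U`. -/
def Algebraic (U : Set ℂ) (f : ℂ → ℂ) : Prop :=
  ∃ P : MvPolynomial (Fin 2) ℂ, P ≠ 0 ∧ ∀ z ∈ U, MvPolynomial.eval ![z, f z] P = 0

/-- A family of elliptic curves `ℂ / Λ_z` with points `P_i = (℘(u_i), ℘'(u_i))`, a tower of functions `t_k`, and
branches `S_k` of `log σ(∑ N_ki u_i)`. -/
structure Family (U : Set ℂ) (Λ : ℂ → PeriodPair) {r s q : ℕ} (u : Fin r → ℂ → ℂ) (t : Fin s → ℂ → ℂ)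
    (N : Fin q → Fin r → ℤ) (S : Fin q → ℂ → ℂ) : Prop where
  isOpen : IsOpen U
  isConnected : IsConnected U
  /-- the lattice depends analytically on `z` -/
  analytic₁ : AnalyticOnNhd ℂ (fun z => (Λ z).ω₁) U
  analytic₂ : AnalyticOnNhd ℂ (fun z => (Λ z).ω₂) U
  /-- the invariants are algebraic functions -/
  algebraic₂ : Algebraic U (fun z => (Λ z).g₂)
  algebraic₃ : Algebraic U (fun z => (Λ z).g₃)
  /-- `j` is not constant: `g₂³` and `g₃²` are linearly independent -/
  nonconstant : ∀ a b : ℂ, (∀ z ∈ U, a * (Λ z).g₂ ^ 3 = b * (Λ z).g₃ ^ 2) → a = 0 ∧ b = 0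
  /-- the points are given by analytic functions `u_i`; they are not zero and their coordinates are algebraic -/
  point : ∀ i, AnalyticOnNhd ℂ (u i) U
  point_ne : ∀ i, ∀ z ∈ U, u i z ∉ (Λ z).lattice
  point_alg : ∀ i, Algebraic U (fun z => ℘[Λ z] (u i z))
  /-- the points are independent modulo torsion -/
  point_ind : ∀ n : Fin r → ℤ, (∀ z ∈ U, ∑ i, (n i : ℂ) * u i z ∈ (Λ z).lattice) → n = 0
  /-- the derivative of the analytic function `t_k` is algebraic over `ℂ(z, t_1, …, t_(k-1))`: there is a nonzero
  polynomial relation between `z`, the derivative, and `t_1, …, t_(k-1)` -/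
  tower : ∀ k, AnalyticOnNhd ℂ (t k) U
  tower_deriv : ∀ k : Fin s, ∃ P : MvPolynomial (Fin 2 ⊕ Fin k) ℂ, P ≠ 0 ∧ ∀ z ∈ U,
    MvPolynomial.eval (Sum.elim ![z, deriv (t k) z] (fun j => t (Fin.castLE k.isLt.le j) z)) P = 0
  /-- the functions `z, t_1, …, t_s` are algebraically independent over `ℂ` -/
  tower_ind : ∀ P : MvPolynomial (Option (Fin s)) ℂ,
    (∀ z ∈ U, MvPolynomial.eval (fun o : Option (Fin s) => o.elim z (fun k => t k z)) P = 0) → P = 0
  /-- `S_k` is a logarithm of `σ(∑ N_ki u_i)` -/
  sigma : ∀ k, AnalyticOnNhd ℂ (S k) U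
  sigma_exp : ∀ k, ∀ z ∈ U, Complex.exp (S k z) = σ (Λ z) (∑ i, (N k i : ℂ) * u i z)
  /-- the quadratic forms `(∑ N_ki X_i)²` are linearly independent -/
  sigma_ind : ∀ c : Fin q → ℤ, (∀ i j, ∑ k, c k * (N k i * N k j) = 0) → c = 0

/-- The index set of the `3 + 2 r + s + q` functions. -/
abbrev Ix (r s q : ℕ) : Type := Fin 3 ⊕ (Fin r ⊕ (Fin r ⊕ (Fin s ⊕ Fin q)))

/-- The numbers `ω₁, ω₂, η₁ = 2 ζ(ω₁ / 2), u_i, ζ(u_i), t_k, S_k` at the point `z`. -/
noncomputable def periods (Λ : ℂ → PeriodPair) {r s q : ℕ} (u : Fin r → ℂ → ℂ) (t : Fin s → ℂ → ℂ)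
    (S : Fin q → ℂ → ℂ) (z : ℂ) : Ix r s q → ℂ :=
  Sum.elim ![(Λ z).ω₁, (Λ z).ω₂, 2 * ζ (Λ z) ((Λ z).ω₁ / 2)] (Sum.elim (fun i => u i z)
    (Sum.elim (fun i => ζ (Λ z) (u i z)) (Sum.elim (fun k => t k z) (fun k => S k z))))

/-- The integral vectors `a = (a_0, …, a_g)` with `|a_i| ≤ T`. -/
noncomputable def box (g T : ℕ) : Finset (Fin (g + 1) → ℤ) := Fintype.piFinset fun _ => Finset.Icc (-(T : ℤ)) (T : ℤ)

/-- The polynomial `a_0 + a_1 x + … + a_g x^g`. -/
noncomputable def poly {g : ℕ} (a : Fin (g + 1) → ℤ) : ℂ[X] := ∑ i, C (a i : ℂ) * X ^ (i : ℕ)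

/-- The roots of the polynomial with the coefficients `a` in the set `K`. -/
noncomputable def roots {g : ℕ} (K : Set ℂ) (a : Fin (g + 1) → ℤ) : Finset ℂ := by
  classical exact (poly a).roots.toFinset.filter fun z => z ∈ K

/-- The numbers `x q` satisfy no relation of degree at most `k` in each of them with coefficients `∑_{b < k} ξ_b c_b`,
where the `c_b` are integers of a number field of degree at most `k` all of whose conjugates are at most `T ^ k`, except
the relations all of whose coefficients vanish. -/
def NoRelation {Q : Type} [Fintype Q] [DecidableEq Q] (ξ : ℕ → ℂ) (k : ℕ) (T : ℝ) (x : Q → ℂ) : Prop :=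
  ∀ (F : Type) [Field F] [NumberField F], Module.finrank ℚ F ≤ k → ∀ (io : F →+* ℂ)
    (c : (Q → Fin (k + 1)) → Fin k → 𝓞 F), (∀ l b (φ : F →+* ℂ), ‖φ (c l b : F)‖ ≤ T ^ k) →
    ∑ l, (∑ b : Fin k, ξ b * io (c l b : F)) * ∏ q, x q ^ (l q : ℕ) = 0 → ∀ l, ∑ b : Fin k, ξ b * io (c l b : F) = 0

/-- There is no relation between the `3 + 2 r + s + q` numbers at all the roots in `K` together. -/
def Independent {g r s q : ℕ} (Λ : ℂ → PeriodPair) (u : Fin r → ℂ → ℂ) (t : Fin s → ℂ → ℂ) (S : Fin q → ℂ → ℂ)
    (K : Set ℂ) (ξ : ℕ → ℂ) (k : ℕ) (T : ℝ) (a : Fin (g + 1) → ℤ) : Prop :=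
  NoRelation ξ k T fun v : {x // x ∈ roots K a} × Ix r s q => periods Λ u t S v.1 v.2

/-- The polynomial with the coefficients `a` has degree `g` and simple roots, and there is no relation between the numbers
at all its roots in `K` together. -/
def Good {g r s q : ℕ} (Λ : ℂ → PeriodPair) (u : Fin r → ℂ → ℂ) (t : Fin s → ℂ → ℂ) (S : Fin q → ℂ → ℂ)
    (K : Set ℂ) (ξ : ℕ → ℂ) (k : ℕ) (T : ℝ) (a : Fin (g + 1) → ℤ) : Prop :=
  a (Fin.last g) ≠ 0 ∧ (poly a).Separable ∧ Independent Λ u t S K ξ k T a

/-- The polynomial with the coefficients `a` has degree `g` and simple roots, all of them are of absolute value at most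
`R`, and the distance of any two of them is at least `η`. -/
def Position {g : ℕ} (R η : ℝ) (a : Fin (g + 1) → ℤ) : Prop :=
  a (Fin.last g) ≠ 0 ∧ (poly a).Separable ∧ ∀ z, (poly a).eval z = 0 → ‖z‖ ≤ R ∧
    ∀ w, (poly a).eval w = 0 → w ≠ z → η ≤ ‖z - w‖

/-- a compact set has a positive distance from the complement of an open set which contains it -/
theorem exists_ball {K U : Set ℂ} (hK : IsCompact K) (hU : IsOpen U) (h : K ⊆ U) :
    ∃ c : ℝ, 0 < c ∧ ∀ z ∈ K, Metric.ball z c ⊆ U := by
  obtain ⟨c, hc, h1⟩ := hK.exists_thickening_subset_open hU h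
  exact ⟨c, hc, fun z hz w hw => h1 (Metric.mem_thickening_iff.2 ⟨z, hz, hw⟩)⟩

theorem tame {K U : Set ℂ} (hK : IsCompact K) (hU : IsOpen U) (h : K ⊆ U) : Pool.Agent.X255.RH.Tame K U := by
  obtain ⟨c, hc, h1⟩ := exists_ball hK hU h
  refine ⟨∅, c, hc, fun R => by simp, fun z hz w hw => Or.inr (Or.inr ?_)⟩
  by_contra hcon
  rw [not_le] at hcon
  refine hw (h1 z hz ?_)
  rwa [Metric.mem_ball, dist_comm, dist_eq_norm]

section
variable {r s q : ℕ} {U : Set ℂ} {Λ : ℂ → PeriodPair} {u : Fin r → ℂ → ℂ} {t : Fin s → ℂ → ℂ}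
  {N : Fin q → Fin r → ℤ} {S : Fin q → ℂ → ℂ}

theorem fmT (hU : Family U Λ u t N S) : Y776.Fam.FmT U Λ u t N S :=
  ⟨{ isOpen := hU.isOpen, conn := hU.isConnected.isPreconnected, an₁ := hU.analytic₁, an₂ := hU.analytic₂
     ni := hU.nonconstant, ag2 := hU.algebraic₂, ag3 := hU.algebraic₃, ua := hU.point
     un := hU.point_ne, uw := hU.point_alg, ui := hU.point_ind, la := fun k => k.elim0
     le := fun k => k.elim0, li := fun _ _ _ => Subsingleton.elim _ _
     Sa := hU.sigma, Se := hU.sigma_exp, Ni := hU.sigma_ind },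
    hU.tower, hU.tower_deriv, hU.tower_ind⟩

theorem periods_eq : (fun (i : Ix r s q) z => periods Λ u t S z i) = Y776.Fam.yfam Λ u t S := by
  funext i z
  rcases i with a | i | i | k | k
  · fin_cases a
    · rfl
    · rfl
    · exact (Pool.Agent.TH813.Ell.eta_half (Λ z).ω₁_mem_lattice (Pool.Agent.TH813.Ell.half₁ (Λ z))).symm
  all_goals rfl

theorem an (hU : Family U Λ u t N S) (i : Ix r s q) : AnalyticOnNhd ℂ (fun z => periods Λ u t S z i) U := by
  have h1 : (fun z => periods Λ u t S z i) = Y776.Fam.yfam Λ u t S i := congrFun periods_eq i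
  rw [h1]
  exact fun z hz => Y776.Fam.yfam_anT (fmT hU) i z hz

theorem ind (hU : Family U Λ u t N S) :
    Pool.Agent.X255.RH.Indep U (fun (i : Ix r s q) z => periods Λ u t S z i) := by
  obtain ⟨z0, hz0⟩ := hU.isConnected.nonempty
  have h1 : Pool.Agent.Y124.LocInd (fun (i : Ix r s q) z => periods Λ u t S z i) z0 := by
    rw [periods_eq]
    exact Y776.Fam.fam_locIndT (fmT hU) hz0
  refine Pool.Agent.X255.RH.indep_of_aindepS fun P hP => h1 P ?_
  filter_upwards [hU.isOpen.mem_nhds hz0] with z hz using hP z hz

end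

open scoped Classical in
/-- **Theorem.** Let `Λ, u, t, N, S` be a family on `U`, let `ξ_0, ξ_1, …` be complex numbers and `g ≥ 1`. (1) For every
sequence `K_0, K_1, …` of compact subsets of `U` there is a function `ω(T) → ∞` such that all but at most the proportion
`1 / ω(T)` of the `(2 T + 1)^(g + 1)` integral polynomials with coefficients at most `T` have degree `g`, simple roots,
and no relation of degree and height at most `ω(T)`, `T ^ ω(T)` between the periods at all the roots in `K_(ω(T))`.
(2) For every compact subset `K` of `U` and all `k`, `R`, `η > 0`, `ε > 0` there is `C` such that the number of the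
polynomials with coefficients at most `T` with roots of absolute value at most `R` and distances at least `η`, for which
there is a relation of degree and height at most `k`, `T ^ k` between the periods at all roots in `K`, is at most
`C T ^ (g + ε)`. -/
theorem result (g : ℕ) (hg : 0 < g) {r s q : ℕ} (U : Set ℂ) (Λ : ℂ → PeriodPair) (u : Fin r → ℂ → ℂ)
    (t : Fin s → ℂ → ℂ) (N : Fin q → Fin r → ℤ) (S : Fin q → ℂ → ℂ) (hU : Family U Λ u t N S) (ξ : ℕ → ℂ) :
    (∀ K : ℕ → Set ℂ, (∀ k, IsCompact (K k) ∧ K k ⊆ U) →
      ∃ ω : ℕ → ℕ, Tendsto ω atTop atTop ∧ Monotone ω ∧ ∀ T : ℕ,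
        ω T * ((box g T).filter fun a => ¬ Good Λ u t S (K (ω T)) ξ (ω T) T a).card ≤ (box g T).card) ∧
    ∀ K : Set ℂ, IsCompact K → K ⊆ U → ∀ (k : ℕ) (R η ε : ℝ), 0 < η → 0 < ε → ∃ B : ℝ, ∀ T : ℕ, 1 ≤ T →
      (((box g T).filter fun a => Position R η a ∧ ¬ Independent Λ u t S K ξ k T a).card : ℝ) ≤
        B * (T : ℝ) ^ ((g : ℝ) + ε) := by
  refine ⟨fun K hK => ?_, fun K hK hKU k R η ε hη hε => ?_⟩
  · exact Pool.Agent.X255.RH.main_all hg hU.isConnected.isPreconnected hU.isOpen K
      (fun k => tame (hK k).1 hU.isOpen (hK k).2) (an hU) (ind hU) ξ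
  · obtain ⟨c, hc, h1⟩ := exists_ball hK hU.isOpen hKU
    obtain ⟨B, hB⟩ := Pool.Agent.X255.RH.main_eps hg hU.isConnected.isPreconnected hU.isOpen (an hU) (ind hU) K ξ k R
      (min η c) ε (lt_min hη hc) hε
    refine ⟨B, fun T hT => (Nat.cast_le.2 (Finset.card_le_card ?_)).trans (hB T hT)⟩
    intro a ha
    rw [Finset.mem_filter] at ha ⊢
    exact ⟨ha.1, ⟨ha.2.1.1, ha.2.1.2.1, fun z hz => ⟨(ha.2.1.2.2 z hz).1, fun w hw hwz =>
      (min_le_left _ _).trans ((ha.2.1.2.2 z hz).2 w hw hwz), fun hzK =>
        (Metric.ball_subset_ball (min_le_right _ _)).trans (h1 z hzK)⟩⟩, ha.2.2⟩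

end Pool.Agent.Results.MP_ae0f86_nt.AllRootsOfPolynomials
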