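import Pool.Agent.Zk26.BDGen

/-!
# An arbitrary fixed motive and the Kummer motives at almost all points of bounded degree

Let `M₀` be any Nori motive over `ℚ̄` and `D ≥ 0`, and let `W ⊂ ℂ` be the space over `ℚ̄` spanned by
the monomials of degree at most `D` in the periods of `M₀`; below `W` is any space of finite
dimension over `ℚ̄`.  Let `f_1, …, f_n` be rational functions with algebraic coefficients.  The Kummer
motive `K_q = H^1(G_m, {1, f_1(q), …, f_n(q)})` has the periods `1`, `2 π i` and `log f_j(q)`.  If
`f_1(q), …, f_n(q)` are not related to `M₀`, the period conjecture for `M₀ ⊕ K_q` says that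
`log f_1(q), …, log f_n(q)` are algebraically independent over the field generated by the periods
of `M₀` and `2 π i`.  We prove, for the relations which are of degree at most `D` in the periods of
`M₀` and linear in those of `K_q`: there are no relations for all but finitely many points `q` of
degree at most `d` over a number field `K` (for `d = 1`: for all but finitely many `q` in `K`), if
every product `f_1 ^ a_1 ⋯ f_n ^ a_n` with integral exponents which are not all `0` has at least
`2 d + 1` different zeros and poles on the projective line.

More precisely: for all logarithms `y_j` of the numbers `f_j(q)`, and all `w_0, …, w_n` in `W`,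

* if `w_0 + w_1 y_1 + ⋯ + w_n y_n` is a linear form, with algebraic coefficients, in `1` and any
  logarithms of algebraic numbers (such as `2 π i`), then `w_1, …, w_n` are algebraic numbers;
* if `w_0 + w_1 y_1 + ⋯ + w_n y_n = 0` then `w_0 = ⋯ = w_n = 0`: all relations are consequences of
  those between the periods of `M₀`.

Nothing is assumed about the periods of `M₀`.

The proof.  Let `E_0` be the space of all the linear forms which are coefficients of the relations
`∑ w_μ ℓ_μ = 0` between elements `w_μ` of `W` and linear forms in logarithms `ℓ_μ`.  It has finite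
dimension, by the strong six exponentials theorem of D. Roy.  So the exceptions are points `q` at
which a nontrivial combination of `y_1, …, y_n` with algebraic coefficients is in a fixed space of
finite dimension, and by Baker's theorem `f_1(q), …, f_n(q)` are multiplicatively dependent modulo
a fixed group of finite rank.  At such a `q` the ratios of the values of the minimal polynomial of
`q` at `2 d + 1` fixed points are `S`-units, for a fixed set `S`; by the subspace theorem there are
only finitely many such polynomials.
-/

set_option autoImplicit false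

namespace Pool.Agent.Results.MP_ae0f86_nt.FixedMotiveAndKummer

open Polynomial

/-- the linear combinations, with algebraic coefficients, of `1` and logarithms of algebraic numbers -/
noncomputable def LogForms : Submodule (algebraicClosure ℚ ℂ) ℂ :=
  Submodule.span (algebraicClosure ℚ ℂ) ({1} ∪ {z : ℂ | IsAlgebraic ℚ (Complex.exp z)})

/-- the order of vanishing of the rational function `P / Q` at a point of the projective line
(`none` is the point at infinity); negative at the poles -/
noncomputable def order (P Q : (algebraicClosure ℚ ℂ)[X]) : Option (algebraicClosure ℚ ℂ) → ℤ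
  | some z => (P.rootMultiplicity z : ℤ) - Q.rootMultiplicity z
  | none => (Q.natDegree : ℤ) - P.natDegree

/-- **Main result.** -/
theorem result (W : Submodule (algebraicClosure ℚ ℂ) ℂ) (hW : Module.Finite (algebraicClosure ℚ ℂ) W)
    (K : IntermediateField ℚ ℂ) [FiniteDimensional ℚ K] (d : ℕ) {n : ℕ}
    (P Q : Fin n → (algebraicClosure ℚ ℂ)[X]) (hP : ∀ j, P j ≠ 0) (hQ : ∀ j, Q j ≠ 0)
    (hPQ : ∀ a : Fin n → ℤ, a ≠ 0 →
      2 * d + 1 ≤ {z | ∑ j, a j * order (P j) (Q j) z ≠ 0}.ncard) :
    {q : ℂ | IsIntegral K q ∧ (minpoly K q).natDegree ≤ d ∧
      ¬ ((∀ j, aeval q (P j) ≠ 0 ∧ aeval q (Q j) ≠ 0) ∧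
        ∀ y : Fin n → ℂ, (∀ j, Complex.exp (y j) = aeval q (P j) / aeval q (Q j)) →
          ∀ w₀ ∈ W, ∀ w : Fin n → ℂ, (∀ j, w j ∈ W) →
            (w₀ + ∑ j, w j * y j ∈ LogForms → ∀ j, IsAlgebraic ℚ (w j)) ∧
            (w₀ + ∑ j, w j * y j = 0 → w₀ = 0 ∧ ∀ j, w j = 0))}.Finite := by
  have hord : ∀ (P Q : (algebraicClosure ℚ ℂ)[X]) (o), Pool.Agent.Zk26.ordQ P Q o = order P Q o := by
    intro P Q o
    cases o <;> rfl
  exact Pool.Agent.Zk26.gen_bd W hW K d n P Q hP hQ (by
    intro a ha
    have h1 := hPQ a ha
    simp only [hord]
    exact h1)

end Pool.Agent.Results.MP_ae0f86_nt.FixedMotiveAndKummer
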