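import Pool.Agent.N603.DB.Nr
import Pool.Agent.Y776.Fam.MainT
import Pool.Agent.TH813.EKPer

/-!
# The period conjecture for families of 1-motives and iterated integrals at ALL algebraic points whose height is near
the denominator of a good simultaneous approximation

Let `E_z : y² = 4 x³ - g₂(z) x - g₃(z)` be a family of elliptic curves whose invariants are algebraic functions of `z`
and whose `j` is not constant, and let `P_1, …, P_r` be algebraic sections which are independent modulo torsion. Let
further `t_1, …, t_s` be a tower of integrals: the derivative of `t_k` is algebraic over `ℂ(z, t_1, …, t_(k-1))`, and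
the functions `z, t_1, …, t_s` are algebraically independent. Examples are integrals of the first, second and third kind
on any curves which do not depend on `z`, between points depending on `z`, logarithms of algebraic functions, and all
iterated integrals of algebraic differentials, for instance multiple polylogarithms (periods of mixed Tate motives).
Then `ω₁, ω₂, η₁` (`η₂` is determined by Legendre's relation), the elliptic logarithms `u_i` of `P_i`, the integrals of
the second kind `ζ(u_i)`, the integrals of the third kind `S_k = log σ(∑ N_i u_i)` and `t_k` are built from periods of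
Nori motives `M_z` over the field generated by `z`, and the conjecture for these motives says that in general the
`3 + 2 r + s + q` numbers are algebraically independent over the field of the periods of any other motive.

Let `α_1, …, α_m` be real numbers. We consider the natural numbers `p` with `‖p α_j - β_j‖ ≤ C p^(-τ)` for all `j`,
`‖x‖` the distance to the nearest integer; for `β = 0`, `C = 1`, `τ = 1 / m` these include the denominators of all best
simultaneous approximations (the denominators of the convergents for `m = 1`). They form a very sparse sequence, with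
gaps growing exponentially for almost all `α` if `τ = 1 / m`. Let `G` be a function with steps bounded below by a positive
constant and growth at most `v^e`, for example `a v^e`. We consider any SEQUENCE of families (for instance all families
over the algebraic numbers, on discs with rational centres and radii) and any sequence `ξ_0, ξ_1, …` of complex numbers
(for instance an enumeration of the periods of ALL Nori motives over the algebraic numbers). We show: for all `α` in
`ℝ^m` outside a set of Hausdorff dimension at most `(m + κ) / (1 + τ)`, for all number fields `F` in `ℂ`, all families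
of the sequence and all compact subsets `L` of their domains, for all but finitely many of these `p`, the period
conjecture is true in bounded degree and height, relative to `ξ_0, …, ξ_(g-1)`, for `M_x` at EVERY point `x ∈ L` of `F`
whose height is within `p^κ` of `G p`: at most `T ^ (-B)`, `T` the height of `x`, is not reached by the polynomials of
degree at most `d` and height at most `T ^ A` in the `3 + 2 r + s + q` numbers, and together with `π` they satisfy no
relation of degree at most `d` and height at most `T ^ A` over `F`. For `τ = 1 / m` and `κ < 1` the bound for the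
dimension is less than `m`, so that the statement holds for almost all `α`.

There are about `p^(2 [F : ℚ] - 1 + κ)` points of `F` with a height within `p^κ` of `p`; the starting results
`MP_ae0f86_nt.OneMotivesAndTowers` and `SmallDiscs` allow exceptional ones among them for every `p`.

Proof: the functions are algebraically independent over `ℂ(z)`, an Ax-Schanuel theorem relative to countable fields of
constants (`Pool.Agent.Y776.Fam.fam_locIndT`). The elements of height at most `T` in the compact set which are bad at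
their own height are `O(T^ε)` in number for every `ε > 0`; the `p` for which a bad element has a height near `G p` form a
set with `O(X^(κ + ε))` elements up to `X`, and the `α` with infinitely many approximations with denominators in such a
set are covered by few small cubes (`Pool.Agent.N671.DA`, `Pool.Agent.N603.DB`). There are only countably many number
fields in `ℂ`.
-/

set_option autoImplicit false

open scoped PeriodPair
open NumberField

namespace Pool.Agent.Results.MP_ae0f86_nt.HeightsOfApproximations

open Pool.Agent.N671.DA (Solves Expanding expanding_pow)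

/-- The Weierstrass zeta function `ζ(z) = ∑ (1/(z-l) + 1/l + z/l²)`, the sum over the lattice (the summand of `l = 0` is
`1/z`, since `1/0 = 0` in Lean). -/
noncomputable def ζ (L : PeriodPair) (z : ℂ) : ℂ :=
  ∑' l : L.lattice, (1 / (z - l) + 1 / l + z / l ^ 2)

/-- The Weierstrass sigma function `σ(z) = z ∏ (1 - z/l) exp(z/l + z²/(2 l²))`, the product over the lattice (the factor
of `l = 0` is `1`, since `z/0 = 0` in Lean). -/
noncomputable def σ (L : PeriodPair) (z : ℂ) : ℂ :=
  z * ∏' l : L.lattice, ((1 - z / l) * Complex.exp (z / l + (z / l) ^ 2 / 2))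

/-- The function `f` is algebraic over `ℂ(z)` on the set `U`. -/
def Algebraic (U : Set ℂ) (f : ℂ → ℂ) : Prop :=
  ∃ P : MvPolynomial (Fin 2) ℂ, P ≠ 0 ∧ ∀ z ∈ U, MvPolynomial.eval ![z, f z] P = 0

/-- A family of elliptic curves `ℂ / Λ_z` with points `P_i = (℘(u_i), ℘'(u_i))`, a tower of functions `t_k`, and
branches `S_k` of `log σ(∑ N_ki u_i)`. -/
structure Family (U : Set ℂ) (Λ : ℂ → PeriodPair) {r s q : ℕ} (u : Fin r → ℂ → ℂ) (t : Fin s → ℂ → ℂ)
    (N : Fin q → Fin r → ℤ) (S : Fin q → ℂ → ℂ) : Prop where
  isOpen : IsOpen U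
  isPreconnected : IsPreconnected U
  /-- the lattice depends analytically on `z` -/
  analytic₁ : AnalyticOnNhd ℂ (fun z => (Λ z).ω₁) U
  analytic₂ : AnalyticOnNhd ℂ (fun z => (Λ z).ω₂) U
  /-- the invariants are algebraic functions -/
  algebraic₂ : Algebraic U (fun z => (Λ z).g₂)
  algebraic₃ : Algebraic U (fun z => (Λ z).g₃)
  /-- `j` is not constant: `g₂³` and `g₃²` are linearly independent -/
  nonconstant : ∀ a b : ℂ, (∀ z ∈ U, a * (Λ z).g₂ ^ 3 = b * (Λ z).g₃ ^ 2) → a = 0 ∧ b = 0
  /-- the points are given by analytic functions `u_i`; they are not zero and their coordinates are algebraic -/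
  point : ∀ i, AnalyticOnNhd ℂ (u i) U
  point_ne : ∀ i, ∀ z ∈ U, u i z ∉ (Λ z).lattice
  point_alg : ∀ i, Algebraic U (fun z => ℘[Λ z] (u i z))
  /-- the points are independent modulo torsion -/
  point_ind : ∀ n : Fin r → ℤ, (∀ z ∈ U, ∑ i, (n i : ℂ) * u i z ∈ (Λ z).lattice) → n = 0
  /-- the derivative of the analytic function `t_k` is algebraic over `ℂ(z, t_1, …, t_(k-1))`: there is a nonzero
  polynomial relation between `z`, the derivative, and `t_1, …, t_(k-1)` -/
  tower : ∀ k, AnalyticOnNhd ℂ (t k) U
  tower_deriv : ∀ k : Fin s, ∃ P : MvPolynomial (Fin 2 ⊕ Fin k) ℂ, P ≠ 0 ∧ ∀ z ∈ U,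
    MvPolynomial.eval (Sum.elim ![z, deriv (t k) z] (fun j => t (Fin.castLE k.isLt.le j) z)) P = 0
  /-- the functions `z, t_1, …, t_s` are algebraically independent over `ℂ` -/
  tower_ind : ∀ P : MvPolynomial (Option (Fin s)) ℂ,
    (∀ z ∈ U, MvPolynomial.eval (fun o : Option (Fin s) => o.elim z (fun k => t k z)) P = 0) → P = 0
  /-- `S_k` is a logarithm of `σ(∑ N_ki u_i)` -/
  sigma : ∀ k, AnalyticOnNhd ℂ (S k) U
  sigma_exp : ∀ k, ∀ z ∈ U, Complex.exp (S k z) = σ (Λ z) (∑ i, (N k i : ℂ) * u i z)
  /-- the quadratic forms `(∑ N_ki X_i)²` are linearly independent -/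
  sigma_ind : ∀ c : Fin q → ℤ, (∀ i j, ∑ k, c k * (N k i * N k j) = 0) → c = 0

/-- The numbers `ω₁, ω₂, η₁ = 2 ζ(ω₁ / 2), u_i, ζ(u_i), t_k, S_k` at the point `z`. -/
noncomputable def periods (Λ : ℂ → PeriodPair) {r s q : ℕ} (u : Fin r → ℂ → ℂ) (t : Fin s → ℂ → ℂ)
    (S : Fin q → ℂ → ℂ) (z : ℂ) : Fin 3 ⊕ (Fin r ⊕ (Fin r ⊕ (Fin s ⊕ Fin q))) → ℂ :=
  Sum.elim ![(Λ z).ω₁, (Λ z).ω₂, 2 * ζ (Λ z) ((Λ z).ω₁ / 2)] (Sum.elim (fun i => u i z)
    (Sum.elim (fun i => ζ (Λ z) (u i z)) (Sum.elim (fun k => t k z) (fun k => S k z))))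

/-- The height of `x`: the least `T` such that `x` is a quotient of two integers of `F` all of whose conjugates have
absolute value at most `T`. -/
noncomputable def height (F : Type) [Field F] [NumberField F] (x : F) : ℝ :=
  sInf {T : ℝ | ∃ a b : 𝓞 F, b ≠ 0 ∧ (∀ φ : F →+* ℂ, ‖φ a‖ ≤ T ∧ ‖φ b‖ ≤ T) ∧ x = a / b}

/-- The polynomials of degree at most `d` in each variable, all of whose coefficients are of the form `∑ ξ_i ι(c_i)`, where
the `c_i` are integers of the number field `F` all of whose conjugates have absolute value at most `H`. -/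
def Admissible {σ : Type} {g : ℕ} (F : Type) [Field F] [NumberField F] (ι : F →+* ℂ) (ξ : Fin g → ℂ) (d : ℕ) (H : ℝ)
    (P : MvPolynomial σ ℂ) : Prop :=
  (∀ y, P.degreeOf y ≤ d) ∧
    ∀ s, ∃ c : Fin g → 𝓞 F, (∀ i (φ : F →+* ℂ), ‖φ (c i)‖ ≤ H) ∧ P.coeff s = ∑ i, ξ i * ι (c i)

/-- The complex numbers `v` are good: every admissible polynomial takes at them a value which is at least `δ` times each of
its coefficients, and `π` and these numbers satisfy no relation `Q = 0` with a nonzero polynomial `Q` of degree at most `d`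
in each variable whose coefficients are integers of `F` with conjugates of absolute value at most `H`. -/
def Good {σ : Type} {g : ℕ} (F : Type) [Field F] [NumberField F] (ι : F →+* ℂ) (ξ : Fin g → ℂ) (d : ℕ)
    (H δ : ℝ) (v : σ → ℂ) : Prop :=
  (∀ P : MvPolynomial σ ℂ, Admissible F ι ξ d H P → ∀ s, δ * ‖P.coeff s‖ ≤ ‖MvPolynomial.aeval v P‖) ∧
  ∀ Q : MvPolynomial (Option σ) (𝓞 F), Q ≠ 0 → (∀ x, Q.degreeOf x ≤ d) →
    (∀ s (φ : F →+* ℂ), ‖φ ((Q.coeff s : 𝓞 F) : F)‖ ≤ H) →
    MvPolynomial.eval₂ (ι.comp (algebraMap (𝓞 F) F)) (fun o => o.elim (Real.pi : ℂ) v) Q ≠ 0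

/-- **Theorem.** (1) Let `ξ` be a sequence of complex numbers, let a sequence of families be given, let `G` have steps
`≥ c > 0` and growth at most `v^e`, `0 ≤ κ ≤ 1`, `β` in `ℝ^m` and `τ > 0`. There is a set `E` in `ℝ^m` of Hausdorff
dimension at most `(m + κ) / (1 + τ)` such that for all `α` outside `E`, all number fields `F` in `ℂ`, all families of the
sequence, all `g`, `d`, `A` and all compact subsets `L` of the domain of the family there is `B` such that for all `C` and
all large `p` with `‖p α_j - β_j‖ ≤ C p^(-τ)` for all `j`: the numbers `ω₁, ω₂, η₁, u_i, ζ(u_i), t_k, S_k` are good at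
EVERY point `x` of `F` in `L` with `|height x - G p| ≤ p^κ`, for the degree `d`, the height `T ^ A`, the numbers
`ξ_0, …, ξ_(g-1)` and the measure `T ^ (-B)`, where `T` is the height of `x`.
(2) The functions `c v^b` with `c > 0`, `b ≥ 1` are examples of `G`. -/
theorem result :
    (∀ (r s q : ℕ → ℕ) (U : ℕ → Set ℂ) (Λ : ℕ → ℂ → PeriodPair) (u : ∀ j, Fin (r j) → ℂ → ℂ)
      (t : ∀ j, Fin (s j) → ℂ → ℂ) (N : ∀ j, Fin (q j) → Fin (r j) → ℤ) (S : ∀ j, Fin (q j) → ℂ → ℂ),
      (∀ j, Family (U j) (Λ j) (u j) (t j) (N j) (S j)) → ∀ (ξ : ℕ → ℂ) (G : ℕ → ℝ) (e : ℝ), Expanding G e →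
      ∀ κ : ℝ, 0 ≤ κ → κ ≤ 1 → ∀ (m : ℕ) (β : Fin m → ℝ) (τ : ℝ), 0 < τ →
      ∃ E : Set (Fin m → ℝ), dimH E ≤ ENNReal.ofReal ((m + κ) / (1 + τ)) ∧
        ∀ α, α ∉ E → ∀ (F : IntermediateField ℚ ℂ) [NumberField F] (j g d : ℕ) (A : ℝ) (L : Set ℂ),
          IsCompact L → L ⊆ U j → ∃ B : ℝ, ∀ C : ℝ, ∃ p₀ : ℕ, ∀ p : ℕ, p₀ ≤ p →
            Solves α β p (C * (p : ℝ) ^ (-τ)) → ∀ x : F, (x : ℂ) ∈ L → |height F x - G p| ≤ (p : ℝ) ^ κ →
              Good F (algebraMap F ℂ) (fun i : Fin g => ξ i) d (height F x ^ A) (height F x ^ (-B))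
                (periods (Λ j) (u j) (t j) (S j) (x : ℂ))) ∧
    ∀ c b : ℝ, 0 < c → 1 ≤ b → Expanding (fun v => c * (v : ℝ) ^ b) b := by
  refine ⟨?_, fun a b ha hb => expanding_pow ha hb⟩
  intro r s q U Λ u t N S hU ξ G e hG κ hκ hκ1 m β τ hτ
  classical
  have hF : ∀ j, Y776.Fam.FmT (U j) (Λ j) (u j) (t j) (N j) (S j) := fun j =>
    ⟨{ isOpen := (hU j).isOpen, conn := (hU j).isPreconnected, an₁ := (hU j).analytic₁, an₂ := (hU j).analytic₂
       ni := (hU j).nonconstant, ag2 := (hU j).algebraic₂, ag3 := (hU j).algebraic₃, ua := (hU j).point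
       un := (hU j).point_ne, uw := (hU j).point_alg, ui := (hU j).point_ind, la := fun k => k.elim0
       le := fun k => k.elim0, li := fun _ _ _ => Subsingleton.elim _ _
       Sa := (hU j).sigma, Se := (hU j).sigma_exp, Ni := (hU j).sigma_ind },
      (hU j).tower, (hU j).tower_deriv, (hU j).tower_ind⟩
  have hper : ∀ j i, (fun z => periods (Λ j) (u j) (t j) (S j) z i) = Y776.Fam.yfam (Λ j) (u j) (t j) (S j) i := by
    intro j i
    funext z
    rcases i with a | i | i | k | k
    · fin_cases a
      · rfl
      · rfl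
      · exact (Pool.Agent.TH813.Ell.eta_half (Λ j z).ω₁_mem_lattice (Pool.Agent.TH813.Ell.half₁ (Λ j z))).symm
    all_goals rfl
  choose E hE h using fun j : ℕ => N603.DB.master_all' (fun i z => periods (Λ j) (u j) (t j) (S j) z i) (U j)
    (hU j).isOpen (fun i t' ht => by
      have h1 : (fun z => periods (Λ j) (u j) (t j) (S j) z i) = Y776.Fam.yfam (Λ j) (u j) (t j) (S j) i := hper j i
      rw [h1]
      exact Y776.Fam.yfam_anT (hF j) i t' ht) (fun t' ht => by
      have h1 : (fun i z => periods (Λ j) (u j) (t j) (S j) z i) = Y776.Fam.yfam (Λ j) (u j) (t j) (S j) :=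
        funext fun i => hper j i
      rw [h1]
      exact Y776.Fam.fam_locIndT (hF j) ht) ξ hG hκ hκ1 β hτ
  refine ⟨⋃ j, E j, ?_, fun α hα F _ j g d A L hL hLU => ?_⟩
  · rw [dimH_iUnion]
    exact iSup_le hE
  · obtain ⟨B, hB⟩ := h j α (fun hh => hα (Set.mem_iUnion.2 ⟨j, hh⟩)) F g d A L hL hLU
    refine ⟨B, fun C => ?_⟩
    obtain ⟨Q, hQ⟩ := hB C
    exact ⟨Q, fun p hp hs x hx hG' => hQ p hp hs x hx hG'⟩

end Pool.Agent.Results.MP_ae0f86_nt.HeightsOfApproximations
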